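import Pool.Agent.H441.UA.Key
import Pool.Graph.R_pool_sql_team_seeded_63374d34.N254.SQ.Fin3
import Pool.Graph.R_pool_sql_team_seeded_63374d34.N254.SQ.IdlR
import Pool.Graph.R_pool_sql_team_seeded_63374d34.N254.SQ.RestrR

/-!
# The Green–Griffiths–Lang conjecture is a question on systems of diagonal equations

MP_8d161d_ag, Q1. Let `m ≥ 2` be fixed (for example `m = 2`) and let `D` be a symmetric set of complex
numbers which contains `1` and generates the vector space `ℂ` over `ℚ` (for example `D = ℂ`, or the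
set of all complex numbers of absolute value `1`).

**Theorem 1.** Let `X` be any projective variety in `P^n` (any dimension, any singularities). There are a
system of diagonal equations

`Y : c_i0 y_0 ^ m + ⋯ + c_iN y_N ^ m = 0`, `i < k`, with coefficients in `D ∪ {0}`,

and forms `φ_0, …, φ_N` of the same degree, among them all monomials of this degree, so that
`φ : P^n → P^N` is a closed embedding, such that `X = φ⁻¹(Y)` and

* every nonconstant entire curve in `Y` lies in one of the finitely many copies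
`{(ζ_0 φ_0(x) : … : ζ_N φ_N(x)) : x ∈ X}`, `ζ_j ^ m = 1`, of `X` (and comes from an entire curve in `X`);
* every closed subvariety of `Y` of positive dimension is of general type or contained in one of
these copies of `X`.

So the linear subspaces of `P^N` and their inverse images under the map
`(y_0 : … : y_N) ↦ (y_0 ^ m : … : y_N ^ m)` are, for the Green–Griffiths–Lang conjecture, as complicated
as all projective varieties:

**Theorem 2.** The Green–Griffiths–Lang conjecture (the exceptional set, i.e. the Zariski closure of the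
union of all nonconstant entire curves, of a projective variety of general type is a proper subset)
for all irreducible projective varieties is equivalent to the following statement: for no system
`Y : ∑_j c_ij y_j ^ m = 0`, `i < k`, with coefficients in `D ∪ {0}` has the exceptional set of `Y` a
component of positive dimension which is of general type.

Proof. See `Pool/Agent/H441/UA`. The `m`-th powers of the coordinates of a point of `Y` over a field are
the values of a linear functional on the `m`-th powers of many linear forms in the monomials. For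
entire curves the field is the field of meromorphic functions and a theorem of Büchi type of the
library (`pow_Minf`) applies to the restrictions of the functional to pencils. For subvarieties not
of general type one uses the library theorem `core_rad` on one polynomial over a function field not of
general type, for the product of suitable translates of all these restrictions. In both cases the
functional is the evaluation at a point of the Veronese image of `X`.
-/

set_option autoImplicit false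

namespace Pool.Agent.Results.MP_8d161d_ag.DiagonalSystemsSuffice

open MvPolynomial
open Pool.Agent.W602.GT (SubVar GeneralType)
open Pool.Agent.N254.SQ (IsForm Eqs Component OnCurves)

/-- Q1 for all irreducible projective varieties of positive dimension: if the irreducible closed set
in `P^n` with function field `L` and generic point `y` is of general type, then some form which does
not vanish on it vanishes on all its nonconstant entire curves. -/
def GreenGriffithsLang : Prop :=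
  ∀ (n : ℕ) (L : Type) [Field L] [Algebra ℂ L] (w : ℕ) (y : Fin (n + 1) → L), 1 ≤ w →
    SubVar (fun p : (∅ : Set (MvPolynomial (Fin (n + 1)) ℂ)) => (p : MvPolynomial (Fin (n + 1)) ℂ))
      L w y → GeneralType ℂ L w →
    ∃ G : MvPolynomial (Fin (n + 1)) ℂ, IsForm G ∧ aeval y G ≠ 0 ∧ OnCurves (Eqs y) G

/-- the diagonal form `∑ j, c j * y j ^ m` -/
noncomputable def diagonal {N : ℕ} (m : ℕ) (c : Fin (N + 1) → ℂ) :
    MvPolynomial (Fin (N + 1)) ℂ := ∑ j, C (c j) * X j ^ m

/-- no component of positive dimension of the exceptional set (the Zariski closure of the union of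
all nonconstant entire curves) of the projective variety `∑ j, c i j * y j ^ m = 0`, `i < k`, is of
general type -/
def NoComponent (m : ℕ) {N k : ℕ} (c : Fin k → Fin (N + 1) → ℂ) : Prop :=
  ∀ (L : Type) [Field L] [Algebra ℂ L] (w : ℕ) (y : Fin (N + 1) → L), 1 ≤ w →
    SubVar (fun i => diagonal m (c i)) L w y → GeneralType ℂ L w →
    ¬ Component (OnCurves (Set.range fun i => diagonal m (c i))) y

section proof

open Pool.Agent.N254.SQ (Gen reduce t_comp t_idls t_restr)
open Pool.Agent.W602.GT (coords val)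
open Pool.Agent.H441.UA (FEmb vals exists_femb key pullφ pullφ_eval)

theorem noComponent_of (hG : GreenGriffithsLang) (m : ℕ) {N k : ℕ}
    (c : Fin k → Fin (N + 1) → ℂ) : NoComponent m c := by
  intro L _ _ w y hw hy hGT hC
  obtain ⟨G, hG1, hG2, hG3⟩ := hG N L w y hw
    ⟨hy.ne, fun p => absurd p.2 (Set.notMem_empty _), hy.gen, hy.dim⟩ hGT
  obtain ⟨hc1, H, hH, hyH, hc2⟩ := hC
  have h1 := t_restr.curves N _ L y G H hG1 hH hc2 hG3
  obtain ⟨a, ha⟩ := hG1
  obtain ⟨b, hb⟩ := hH
  have h2 := hc1 (G * H) ⟨a + b, ha.mul hb⟩ h1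
  rw [map_mul] at h2
  exact mul_ne_zero hG2 hyH h2

theorem id_map {M : ℕ} (p : MvPolynomial (Fin (M + 1)) ℂ) : map (RingHom.id ℂ) p = p := map_id p

theorem eval_id {M : ℕ} {Ω : Type} [Field Ω] [Algebra ℂ Ω] (x : Fin (M + 1) → Ω)
    (p : MvPolynomial (Fin (M + 1)) ℂ) :
    eval₂ ((algebraMap ℂ Ω).comp (RingHom.id ℂ)) x p = aeval x p := rfl

theorem ggl_of (D : Set ℂ) (hD1 : 1 ∈ D) (hD2 : ∀ x ∈ D, -x ∈ D)
    (hD3 : Submodule.span ℚ D = ⊤) {m : ℕ} (hm : 2 ≤ m)
    (h : ∀ (N k : ℕ) (c : Fin k → Fin (N + 1) → ℂ), (∀ i j, c i j = 0 ∨ c i j ∈ D) →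
      NoComponent m c) : GreenGriffithsLang := by
  intro n L _ _ w y hw hy hGT
  obtain ⟨T, hT, hTS⟩ := reduce (Eqs y)
  obtain ⟨N, k, φ, c, I, J, hcD, hE⟩ := exists_femb D hD1 hD2 hD3 hm
    (fun p : T => (p : MvPolynomial (Fin (n + 1)) ℂ)) (fun e : Empty => e.elim)
    (fun e : Empty => e.elim) (fun p => (hT p.2).1) (fun e => e.elim) (fun e => e.elim)
  have hrange : ∀ i, OnCurves (Set.range fun i => diagonal m (c i))
      (map (RingHom.id ℂ) (Pool.Agent.H441.DQ.dform m (c i))) := by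
    intro i f _ _ hx
    rw [id_map]
    exact Or.inr fun z => hx z _ ⟨i, rfl⟩
  obtain ⟨P, hP, hPQ, hPy⟩ := key (σ := RingHom.id ℂ) t_comp (by omega) hE (y := y) hw
    ⟨hy.ne, hy.gen, hy.dim⟩ (fun P hP hyP Ω _ _ x hx => by
      have h1 := hTS Ω (algebraMap ℂ Ω) x (fun p hp => by
        rw [eval_map]
        exact hx ⟨p, hp⟩) P ⟨hP, hyP⟩
      rw [eval_map] at h1
      exact h1) hGT
    (Q := OnCurves (Set.range fun i => diagonal m (c i)))
    (t_idls.curves N _) hrange
    (fun L' _ _ w' y' hw' hy' hGT' => h N k c hcD L' w' y' hw' (by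
      refine ⟨hy'.ne, fun i => ?_, hy'.gen, hy'.dim⟩
      have := hy'.mem i
      rw [id_map] at this
      exact this) hGT')
  refine ⟨pullφ (RingHom.id ℂ) φ P, hE.pull_form _ hP, ?_, ?_⟩
  · rw [pullφ_eval]
    exact hPy
  · intro f hf hf0 hfS
    have hfv : ∀ z, vals (RingHom.id ℂ) φ (f z) ≠ 0 := fun z => hE.ne ℂ _ _ (hf0 z)
    have hdiff : Differentiable ℂ fun z => vals (RingHom.id ℂ) φ (f z) := by
      rw [differentiable_pi]
      intro j
      have h1 : Differentiable ℂ fun x => eval x (φ j) := by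
        have := (AnalyticOnNhd.eval_mvPolynomial (φ j)).differentiableOn (𝕜 := ℂ)
        exact differentiableOn_univ.1 this
      exact h1.comp hf
    have hmem : ∀ z, ∀ p ∈ Set.range fun i => diagonal m (c i),
        eval (vals (RingHom.id ℂ) φ (f z)) p = 0 := by
      rintro z _ ⟨i, rfl⟩
      exact (hE.pts ℂ (RingHom.id ℂ) (f z) (hf0 z)).1 (fun p => hfS z p (hT p.2)) i
    rcases hPQ _ hdiff hfv hmem with h1 | h1
    · left
      intro z w
      obtain ⟨b, hb⟩ := h1 z w
      exact hE.inj ℂ (RingHom.id ℂ) (f w) (f z) b (hf0 w) hb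
    · right
      intro z
      have h2 : eval (f z) (pullφ (RingHom.id ℂ) φ P) =
          aeval (f z) (pullφ (RingHom.id ℂ) φ P) := by
        rw [← coe_aeval_eq_eval]
        rfl
      rw [h2, pullφ_eval]
      have h3 := h1 z
      rw [← coe_aeval_eq_eval] at h3
      exact h3

theorem part_one (m : ℕ) (hm : 2 ≤ m) (D : Set ℂ) (hD1 : 1 ∈ D)
    (hD2 : ∀ x ∈ D, -x ∈ D) (hD3 : Submodule.span ℚ D = ⊤) (n : ℕ)
    (S : Set (MvPolynomial (Fin (n + 1)) ℂ)) (hS : ∀ p ∈ S, ∃ e, p.IsHomogeneous e) :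
      ∃ (N k : ℕ) (c : Fin k → Fin (N + 1) → ℂ) (e : ℕ)
        (φ : Fin (N + 1) → MvPolynomial (Fin (n + 1)) ℂ),
        (∀ i j, c i j = 0 ∨ c i j ∈ D) ∧ 1 ≤ e ∧ (∀ j, (φ j).IsHomogeneous e) ∧
        (∀ α : Fin (n + 1) → ℕ, ∑ i, α i = e → ∃ j, φ j = ∏ i, X i ^ α i) ∧
        (∀ x : Fin (n + 1) → ℂ, x ≠ 0 → ((∀ p ∈ S, eval x p = 0) ↔
            ∀ i, eval (fun j => eval x (φ j)) (diagonal m (c i)) = 0)) ∧
        (∀ f : ℂ → Fin (N + 1) → ℂ, Differentiable ℂ f → (∀ z, f z ≠ 0) →
          (∀ z i, eval (f z) (diagonal m (c i)) = 0) → (∀ z w, ∃ b : ℂ, f w = b • f z) ∨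
            ∃ (ζ : Fin (N + 1) → ℂ) (x : ℂ → Fin (n + 1) → ℂ), (∀ j, ζ j ^ m = 1) ∧
              Differentiable ℂ x ∧ (∀ z, x z ≠ 0) ∧ (∀ z, ∀ p ∈ S, eval (x z) p = 0) ∧
              ∀ z j, f z j = ζ j * eval (x z) (φ j)) ∧
        ∀ (L : Type) [Field L] [Algebra ℂ L] (w : ℕ) (y : Fin (N + 1) → L), 1 ≤ w →
          SubVar (fun i => diagonal m (c i)) L w y →
          GeneralType ℂ L w ∨ ∃ (ζ : Fin (N + 1) → ℂ) (x : Fin (n + 1) → L) (s : L),
            (∀ j, ζ j ^ m = 1) ∧ x ≠ 0 ∧ s ≠ 0 ∧ (∀ p ∈ S, aeval x p = 0) ∧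
            ∀ j, y j = s * (algebraMap ℂ L (ζ j) * aeval x (φ j)) := by
  obtain ⟨T, hT, hTS⟩ := reduce S
  obtain ⟨N, k, φ, c, I, J, hcD, hE⟩ := exists_femb D hD1 hD2 hD3 hm
    (fun p : T => (p : MvPolynomial (Fin (n + 1)) ℂ)) (fun e : Empty => e.elim)
    (fun e : Empty => e.elim) (fun p => hS p (hT p.2)) (fun e => e.elim) (fun e => e.elim)
  have hTS' : ∀ (Ω : Type) [Field Ω] [Algebra ℂ Ω] (x : Fin (n + 1) → Ω),
      (∀ p : T, aeval x (p : MvPolynomial (Fin (n + 1)) ℂ) = 0) ↔
        ∀ p ∈ S, aeval x p = 0 := by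
    intro Ω _ _ x
    constructor
    · intro hx p hp
      have h2 := hTS Ω (algebraMap ℂ Ω) x (fun p hp => by
        rw [eval_map]
        exact hx ⟨p, hp⟩) p hp
      rwa [eval_map] at h2
    · exact fun hx p => hx p (hT p.2)
  have hTS2 : ∀ x : Fin (n + 1) → ℂ,
      (∀ p : T, eval x (p : MvPolynomial (Fin (n + 1)) ℂ) = 0) ↔ ∀ p ∈ S, eval x p = 0 := by
    intro x
    have := hTS' ℂ x
    exact this
  obtain ⟨e, he, hφ, hmono⟩ := hE.mono
  refine ⟨N, k, c, e, φ, hcD, he, hφ, hmono, fun x hx => ?_, fun f hf hf0 hfY => ?_,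
    fun L _ _ w y _ hy => ?_⟩
  · rw [← hTS2]
    exact hE.pts ℂ (RingHom.id ℂ) x hx
  · by_cases hcon : ∀ z w, ∃ b : ℂ, f w = b • f z
    · exact Or.inl hcon
    · right
      push Not at hcon
      obtain ⟨ζ, x, hζ, hxd, hx0, hxF, hfx⟩ := hE.curves (RingHom.id ℂ) f hf hf0 hfY hcon
      exact ⟨ζ, x, hζ, hxd, hx0, fun z => (hTS2 (x z)).1 (hxF z), hfx⟩
  · by_cases hg : GeneralType ℂ L w
    · exact Or.inl hg
    · right
      obtain ⟨ζ, x, s, hζ, hx, hs, hxF, hyx⟩ := hE.sub ℂ (RingHom.id ℂ) L w y hy.ne hy.gen hy.dim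
        hg (fun i => hy.mem i)
      exact ⟨ζ, x, s, hζ, hx, hs, (hTS' L x).1 hxF, hyx⟩

end proof

theorem result (m : ℕ) (hm : 2 ≤ m) (D : Set ℂ) (hD1 : 1 ∈ D) (hD2 : ∀ x ∈ D, -x ∈ D)
    (hD3 : Submodule.span ℚ D = ⊤) :
    -- Theorem 1
    (∀ (n : ℕ) (S : Set (MvPolynomial (Fin (n + 1)) ℂ)), (∀ p ∈ S, ∃ e, p.IsHomogeneous e) →
      ∃ (N k : ℕ) (c : Fin k → Fin (N + 1) → ℂ) (e : ℕ)
        (φ : Fin (N + 1) → MvPolynomial (Fin (n + 1)) ℂ),
        (∀ i j, c i j = 0 ∨ c i j ∈ D) ∧ 1 ≤ e ∧ (∀ j, (φ j).IsHomogeneous e) ∧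
        (∀ α : Fin (n + 1) → ℕ, ∑ i, α i = e → ∃ j, φ j = ∏ i, X i ^ α i) ∧
        (∀ x : Fin (n + 1) → ℂ, x ≠ 0 → ((∀ p ∈ S, eval x p = 0) ↔
            ∀ i, eval (fun j => eval x (φ j)) (diagonal m (c i)) = 0)) ∧
        (∀ f : ℂ → Fin (N + 1) → ℂ, Differentiable ℂ f → (∀ z, f z ≠ 0) →
          (∀ z i, eval (f z) (diagonal m (c i)) = 0) → (∀ z w, ∃ b : ℂ, f w = b • f z) ∨
            ∃ (ζ : Fin (N + 1) → ℂ) (x : ℂ → Fin (n + 1) → ℂ), (∀ j, ζ j ^ m = 1) ∧
              Differentiable ℂ x ∧ (∀ z, x z ≠ 0) ∧ (∀ z, ∀ p ∈ S, eval (x z) p = 0) ∧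
              ∀ z j, f z j = ζ j * eval (x z) (φ j)) ∧
        ∀ (L : Type) [Field L] [Algebra ℂ L] (w : ℕ) (y : Fin (N + 1) → L), 1 ≤ w →
          SubVar (fun i => diagonal m (c i)) L w y →
          GeneralType ℂ L w ∨ ∃ (ζ : Fin (N + 1) → ℂ) (x : Fin (n + 1) → L) (s : L),
            (∀ j, ζ j ^ m = 1) ∧ x ≠ 0 ∧ s ≠ 0 ∧ (∀ p ∈ S, aeval x p = 0) ∧
            ∀ j, y j = s * (algebraMap ℂ L (ζ j) * aeval x (φ j))) ∧
    -- Theorem 2
    (GreenGriffithsLang ↔
      ∀ (N k : ℕ) (c : Fin k → Fin (N + 1) → ℂ), (∀ i j, c i j = 0 ∨ c i j ∈ D) →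
        NoComponent m c) :=
  ⟨fun n S hS => part_one m hm D hD1 hD2 hD3 n S hS,
    fun hG _ _ c _ => noComponent_of hG m c, fun h => ggl_of D hD1 hD2 hD3 hm h⟩

end Pool.Agent.Results.MP_8d161d_ag.DiagonalSystemsSuffice
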