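import Pool.Agent.H918.S.SetThm2

/-!
The Kobayashi pseudodistance of projective varieties which are, up to a finite unramified covering,
fibred over an elliptic curve.
-/

set_option autoImplicit false

open Filter Topology FF Metric LinearAlgebra.Projectivization Pool.Agent.W602.GT
  Pool.Agent.N154.GG Pool.Agent.H918.SS Pool.Agent.H918.SP

/-- Let `X = {F = 0}` be an irreducible projective variety of dimension `d ≥ 2`, which may be singular,
and let `X' = {F' = 0}` be a finite unramified covering of `X` with a holomorphic map `α` to an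
elliptic curve `E = ℂ / L`, for example `X' = X`. Suppose that there is a finite set `B` of points of
`E` such that `X'` has a semistable reduction which is unramified outside of the fibres over `B`
(`HasReduction`). By the theorems of Deligne and Mumford and of Arakelov, all smooth projective
surfaces of general type with a holomorphic map with connected fibres to an elliptic curve satisfy
this.

Then there is a finite set `S` of holomorphic maps `g` from the complex plane to `X`, periodic with
respect to a lattice, such that the Kobayashi pseudodistance of two different points `p` and `q` of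
`X` is positive if `p` is not on one of the curves `g` in `S` and not in the image of a fibre over a
point of `B`.

Moreover, there is a form `G`, not identically zero on `X`, with the following property. Let `H` be a
form which is zero at the images of the points of the fibres over `B`. Then the Kobayashi
pseudodistance of two different points of `X` which are not both in the closed subset `{G H = 0}` is
positive, and this subset contains all nonconstant entire curves. -/
theorem Pool.Agent.Results.MP_8d161d_ag.FibredKobayashi.result {m n : ℕ} {ι ι' : Type}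
    (F : ι → MvPolynomial (Fin (n + 1)) ℂ) (d : ℕ) (K : Type) [Field K] [Algebra ℂ K]
    (y : Fin (n + 1) → K) (hX : ProjVariety F d y) (hd : 2 ≤ d)
    (F' : ι' → MvPolynomial (Fin (m + 1)) ℂ) (hF' : ∀ i, IsForm (F' i))
    (Q : Fin (n + 1) → MvPolynomial (Fin (m + 1)) ℂ) (hQ : EtaleCovering F F' Q) (L : PeriodPair)
    (α : (Fin (m + 1) → ℂ) → ℂ ⧸ L.lattice) (hα : HolToTorus (Cone F') L α)
    (B : Set (ℂ ⧸ L.lattice)) (hB : B.Finite) (hred : HasReduction F' α B) :
    ∃ (S : Set (ℂ → ℙ ℂ (Fin (n + 1) → ℂ))) (k : ℕ), S.Finite ∧ 0 < k ∧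
      (∀ g ∈ S, HolIn F g ∧ ∀ l ∈ L.lattice, ∀ z, g (z + k * l) = g z) ∧
      (∀ p q : ℙ ℂ (Fin (n + 1) → ℂ), p.rep ∈ Cone F → q.rep ∈ Cone F → p ≠ q →
        (∀ b ∈ B, ¬ OverPoint F' α Q b p.rep) → (∀ g ∈ S, ∀ z, p ≠ g z) →
        0 < kobayashi (Cone F) p q) ∧
      ∃ G : MvPolynomial (Fin (n + 1)) ℂ, IsForm G ∧ val y G ≠ 0 ∧
        ∀ H : MvPolynomial (Fin (n + 1)) ℂ, IsForm H →
          (∀ u ∈ Cone F, (∃ b ∈ B, OverPoint F' α Q b u) → val u H = 0) →
          (∀ p q : ℙ ℂ (Fin (n + 1) → ℂ), p.rep ∈ Cone F → q.rep ∈ Cone F → p ≠ q →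
            (val p.rep (G * H) ≠ 0 ∨ val q.rep (G * H) ≠ 0) → 0 < kobayashi (Cone F) p q) ∧
          ∀ f, HolIn F f → (∀ z w, f z = f w) ∨ ∀ z, val (f z).rep (G * H) = 0 := by
  obtain ⟨S, k, h1, h2, h3, -, h4, -, -, G, g1, g2, g3, -⟩ := allV hX hd hF' hQ hα hB hred
  have hkob : ∀ p q : ℙ ℂ (Fin (n + 1) → ℂ), p.rep ∈ Cone F → q.rep ∈ Cone F → p ≠ q →
        (∀ b ∈ B, ¬ OverPoint F' α Q b p.rep) → (∀ g ∈ S, ∀ z, p ≠ g z) →
        0 < kobayashi (Cone F) p q := fun p q hp hq hpq hpB hpS =>
    kobS hX hF' hQ hα hB hred h4 hp hq hpq hpB hpS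
  refine ⟨S, k, h1, h2, fun g hg => ⟨(h3 g hg).1, (h3 g hg).2.1⟩, hkob, G, g1, g2,
    fun H hH hHB => ⟨?_, fun f hf => ?_⟩⟩
  · have hone : ∀ p q : ℙ ℂ (Fin (n + 1) → ℂ), p.rep ∈ Cone F → q.rep ∈ Cone F → p ≠ q →
        val p.rep (G * H) ≠ 0 → 0 < kobayashi (Cone F) p q := by
      intro p q hp hq hpq hv
      rw [val_mul'] at hv
      refine hkob p q hp hq hpq (fun b hb ho => ?_) fun g hg z hz => ?_
      · exact hv (by rw [hHB _ hp ⟨b, hb, ho⟩, mul_zero])
      · exact hv (by rw [hz, g3 g hg, zero_mul])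
    rintro p q hp hq hpq (hv | hv)
    · exact hone p q hp hq hpq hv
    · rw [kobayashi_symm]
      exact hone q p hq hp hpq.symm hv
  · rcases h4 f hf with h8 | ⟨b, hb, h8⟩ | ⟨g, hg, φ, -, h8⟩
    · exact Or.inl h8
    · right
      intro z
      rw [val_mul', hHB _ (hf.2 z) ⟨b, hb, h8 z⟩, mul_zero]
    · right
      intro z
      rw [h8, val_mul', g3 g hg, zero_mul]
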