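import Mathlib
import Pool.Agent.H917.G.W4

/-!
MP_8d161d_ag, Q1: the Green-Griffiths-Lang conjecture for the closed subvarieties of the projective
varieties `X` such that some symmetric power of the cotangent bundle of `X` is generated by global
sections.
-/

set_option autoImplicit false

namespace Pool.Agent.Results.MP_8d161d_ag.GenPowersEntireCurves

open MvPolynomial Metric Set Pool.Agent.H917
open Pool.Agent.W602.GT (GeneralType)

/-- Let `X` be the projective variety with the homogeneous ideal `p`, such that the `m`-th symmetric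
power of the cotangent sheaf of `X` is generated by global sections, for some `m ≥ 1`. Let `V` be an
irreducible closed subvariety of `X` (such as `X` itself, if `X` is irreducible), with the
homogeneous prime ideal `q`, the function field `K` and the generic point `y`. If `V` is of general
type, then there is a proper closed subset `Y` of `V` which contains the images of all nonconstant
holomorphic maps from the plane to `V`: `Y` is the union of finitely many irreducible closed
subvarieties `W ≠ V` of `V` of positive dimension, with the ideals `r` in `S`, which are not of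
general type, and the images of the nonconstant holomorphic maps from abelian varieties to `W` are
Zariski dense in `W`, for each of them. If `V` is not of general type, of positive dimension, then the
images of the nonconstant holomorphic maps from abelian varieties to `V` and those of the entire
curves in `V` are Zariski dense in `V`. -/
theorem result {n : ℕ} (p : Ideal (MvPolynomial (Fin (n + 1)) ℂ))
    {m : ℕ} (hm : 1 ≤ m) (hg : Generated p m)
    (q : Ideal (MvPolynomial (Fin (n + 1)) ℂ)) (hqp : q.IsPrime)
    (hq : ∀ H ∈ q, ∀ d, homogeneousComponent d H ∈ q) (hpq : p ≤ q) (K : Type) [Field K]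
    [Algebra ℂ K] (w : ℕ) (y : Fin (n + 1) → K) (hy : SubVar q K w y)
    (hf : ∀ H : MvPolynomial (Fin (n + 1)) ℂ, (∃ d, H.IsHomogeneous d) → aeval y H = 0 → H ∈ q) :
    (GeneralType ℂ K w → ∃ S : Finset (Ideal (MvPolynomial (Fin (n + 1)) ℂ)),
      (∀ r ∈ S, q < r ∧ r.IsPrime ∧ (∀ H ∈ r, ∀ d, homogeneousComponent d H ∈ r) ∧ NotGT r ∧
        SpAb r = Pts r) ∧
      ∀ f, EntCurve q f → ∀ z, ∃ r ∈ S, f z ∈ Pts r) ∧
    (1 ≤ w → ¬ GeneralType ℂ K w → SpAb q = Pts q ∧ SpH q = Pts q) := by
  obtain ⟨N, s, hs⟩ := hg
  have hs' : Gens p m s := ⟨hs⟩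
  refine ⟨fun hGT => ?_, fun hw hGT => ?_⟩
  · obtain ⟨S, h1, h2, h3⟩ := strongly hqp hq (hs'.res hpq) hm hy hf hGT
    refine ⟨S, fun r hr => ?_, fun f hf z => ?_⟩
    · obtain ⟨h5, h6, h7, h8⟩ := h1 r hr
      refine ⟨h5, h6, h7, h8, ?_⟩
      rw [(spAb_eq h7 (hs'.res (hpq.trans h5.le)) hm).1]
      exact Subset.antisymm (fun x hx => hx.1) (pts_sub_spAlg h8)
    · have h4 : f z ∈ SpH q := ⟨hf.2.1 z, fun G hG h => h f hf z⟩
      rw [(sp_eq hq (hs'.res hpq) hm).2, h3] at h4
      exact h4
  · have h8 : SpAlg q = Pts q := Subset.antisymm (fun x hx => hx.1)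
      (pts_sub_spAlg ⟨K, inferInstance, inferInstance, w, y, hw, hy, hf, hGT⟩)
    rw [(spAb_eq hq (hs'.res hpq) hm).1, (sp_eq hq (hs'.res hpq) hm).2, h8]
    exact ⟨rfl, rfl⟩

end Pool.Agent.Results.MP_8d161d_ag.GenPowersEntireCurves
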