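import Pool.Agent.H911.KE.Iff
import Pool.Agent.H911.KE.Unc

/-!
# The Green–Griffiths–Lang conjecture in dimension `m` is equivalent to a statement on hypersurfaces of
# dimension `m + 1` (or smooth ones of dimension `2 m`) which are hyperbolic outside of a subset of dimension `m`

For a projective variety `Y` let the exceptional set `E(Y)` be the Zariski closure of the union of all
nonconstant entire curves in `Y`. The conjecture says that `E(Y) ≠ Y` if `Y` is of general type.

Let `0 ≤ k ≤ m` and `N = 2 m + 1 - k`. We consider hypersurfaces `Y` of dimension `N - 1 = 2 m - k` in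
`P^N` whose singular locus is of dimension less than `k`. For `k = 0` these are the smooth hypersurfaces
of dimension `2 m`; for `k = m - 1` the hypersurfaces of dimension `m + 1` whose singular locus is of
dimension at most `m - 2` (for `m = 2`: threefolds in `P^4` with isolated singularities). In general the
codimension of the singular locus in `Y` is at least `2 (m - k) + 1`; for `k < m` such hypersurfaces are
irreducible and normal. Such a `Y` is called hyperbolic outside of an irreducible closed subset `X'` if
`X' ⊆ Y`, the singular points of `Y` and all nonconstant entire curves in `Y` are in `X'`, and all closed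
subvarieties of `Y` of positive dimension which are not of general type are in `X'`.

(0) Models. Every irreducible projective variety `X` of dimension `w ≤ m` (with any singularities) has a
linear projection (the linear forms `A_0, …, A_N` have no common zeros on `X`, so it is a finite morphism,
birational onto its image `X'` in `P^N`) such that for all large `D`, with forms `Q_t` of the same degree
`e`, the hypersurface `Y : ∑ t, Q_t(y) (y_0 + t y_1 + ⋯ + t^N y_N)^D = 0` is hyperbolic outside of `X'`, with
a singular locus of dimension less than `k`.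

(0′) Let `Y` be a hypersurface in `P^N` which is hyperbolic outside of `X'`. Then `E(Y) = E(X')`. Every closed
subvariety `V` of `Y` of positive dimension which is not contained in `X'` (for instance `V = Y` and all
subvarieties of dimension larger than `m`) is of general type and `E(V) ≠ V`, so the conjecture is true for
`V`.

(1) ⟺ (2) ⟺ (3), for all `k ≤ m` and every choice of one exponent `δ(e) ≥ D₁(e)` for each `e`:
(1) the conjecture for all irreducible projective varieties of dimension at most `m`, with any
singularities;
(2) for all hypersurfaces `Y` in `P^N`, with a singular locus of dimension less than `k`, which are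
hyperbolic outside of an irreducible closed subset of dimension at most `m`, no component of positive
dimension of `E(Y)` is of general type;
(3) the same for the hypersurfaces `∑ t, Q_t(y) (y_0 + t y_1 + ⋯ + t^N y_N)^D = 0` only, with `N (2 N + 1)`
forms `Q_t` of the same degree `e` and `D = δ(e)`: for each degree `e` only one linear system of
hypersurfaces, of degree `e + δ(e)`.

So in every dimension `m` the conjecture is a statement about smooth hypersurfaces of dimension `2 m` in
`P^(2 m + 1)`, and also about hypersurfaces of dimension `m + 1` in `P^(m + 2)` with a singular locus of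
dimension at most `m - 2`, and these are hypersurfaces for which it is known that the entire curves are
not Zariski dense. The conjecture for all surfaces is equivalent to a statement about threefolds in `P^4`
with isolated singularities.

Proof. Let `z` be the generic point of `X'`, of dimension `w`, a hypersurface in a linear subspace
`P^(w+1)` of `P^N`. The forms which vanish at `z`, of a degree `e` such that they define `X'` and one of
them has a derivative which does not vanish at `z`, together with the products of the remaining
coordinates with monomials, have a Jacobian matrix with the following property: at every point of `X'`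
its rank plus `k` is larger than the dimension of this point (also at the singular points of `X'`). A
count of parameters (for general coefficients of the `Q_t` and of `k` linear forms) shows that the
singular locus of the general `Y` of this form does not meet a linear subspace of codimension `k`. The
entire curves and the closed subvarieties which are not in `X'` are treated by the methods of the
library modules `N254.SQ`. This is (0).
(3) ⟹ (1): If `E(X) = X` for `X` of general type, then `X'` is contained in a component `W` of `E(Y)`. By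
(3) `W` is not of general type, so `W` is contained in `X'`, so `W = X'` is of general type, a
contradiction. Conversely, entire curves in `X'` which are not contained in the centre of the inverse map
can be lifted to `X`, because the projection is finite.
(1) ⟹ (2): a component of `E(Y)` is contained in `X'`, so it is of dimension at most `m`.
-/

set_option autoImplicit false

namespace Pool.Agent.Results.MP_8d161d_ag.SmallSingularLocus

open MvPolynomial
open Pool.Agent.W602.GT (SubVar GeneralType coords)
open Pool.Agent.N254.SQ (IsForm Eqs Component OnCurves powerForm)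

/-- The Green–Griffiths–Lang conjecture for all irreducible projective varieties of dimension
`1, …, m`: if the irreducible closed set in `P^n` with function field `L` and generic point `y` is of
general type, then some form which does not vanish on it vanishes on all its nonconstant entire
curves. -/
def GreenGriffithsLang (m : ℕ) : Prop :=
  ∀ (n : ℕ) (L : Type) [Field L] [Algebra ℂ L] (w : ℕ) (y : Fin (n + 1) → L), 1 ≤ w → w ≤ m →
    SubVar (fun p : (∅ : Set (MvPolynomial (Fin (n + 1)) ℂ)) => (p : MvPolynomial (Fin (n + 1)) ℂ))
      L w y → GeneralType ℂ L w →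
    ∃ G : MvPolynomial (Fin (n + 1)) ℂ, IsForm G ∧ aeval y G ≠ 0 ∧ OnCurves (Eqs y) G

/-- no component of positive dimension of the exceptional set of `A = 0` is of general type -/
def NoComponent {N : ℕ} (A : MvPolynomial (Fin (N + 1)) ℂ) : Prop :=
  ∀ (L : Type) [Field L] [Algebra ℂ L] (w : ℕ) (y : Fin (N + 1) → L), 1 ≤ w →
    SubVar (fun _ : Unit => A) L w y → GeneralType ℂ L w → ¬ Component (OnCurves {A}) y

/-- The singular locus of the hypersurface `A = 0` is of dimension less than `k`: some `k` linear forms
have no common zero on it. For `k = 0` the hypersurface is smooth. -/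
def SmallSing {N : ℕ} (k : ℕ) (A : MvPolynomial (Fin (N + 1)) ℂ) : Prop :=
  ∃ l : Fin k → Fin (N + 1) → ℂ, ∀ x : Fin (N + 1) → ℂ, x ≠ 0 → (∀ i, ∑ j, l i j * x j = 0) →
    ∃ j, eval x (pderiv j A) ≠ 0

/-- the singular locus of the hypersurface `A = 0` is of dimension less than `k`, the hypersurface
contains the irreducible closed set `X'` with generic point `z`, its singular points and its nonconstant
entire curves are in `X'`, and its closed subvarieties of positive dimension are of general type or lie
in `X'` -/
def HyperbolicOutside {N : ℕ} (k : ℕ) (A : MvPolynomial (Fin (N + 1)) ℂ) {L : Type} [Field L]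
    [Algebra ℂ L] (z : Fin (N + 1) → L) : Prop :=
  SmallSing k A ∧ aeval z A = 0 ∧
    (∀ x : Fin (N + 1) → ℂ, x ≠ 0 → (∀ j, eval x (pderiv j A) = 0) → ∀ p ∈ Eqs z, eval x p = 0) ∧
    (∀ f : ℂ → Fin (N + 1) → ℂ, Differentiable ℂ f → (∀ t, f t ≠ 0) → (∀ t, eval (f t) A = 0) →
      (∀ s t, ∃ c : ℂ, f t = c • f s) ∨ ∀ t, ∀ p ∈ Eqs z, eval (f t) p = 0) ∧
    ∀ (L' : Type) [Field L'] [Algebra ℂ L'] (w : ℕ) (y : Fin (N + 1) → L'), 1 ≤ w →
      SubVar (fun _ : Unit => A) L' w y → GeneralType ℂ L' w ∨ ∀ p ∈ Eqs z, aeval y p = 0

/-- The singular locus of the hypersurface `A = 0` is of dimension less than `k`, and the hypersurface is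
hyperbolic outside of some irreducible closed subset of dimension at most `m`. -/
def Outside {N : ℕ} (m k : ℕ) (A : MvPolynomial (Fin (N + 1)) ℂ) : Prop :=
  ∃ (L : Type) (_ : Field L) (_ : Algebra ℂ L) (w : ℕ) (z : Fin (N + 1) → L), w ≤ m ∧
    SubVar (fun p : (∅ : Set (MvPolynomial (Fin (N + 1)) ℂ)) =>
      (p : MvPolynomial (Fin (N + 1)) ℂ)) L w z ∧ HyperbolicOutside k A z

section proof

open Pool.Agent.N254.SQ (Gen NotIn LogGeneral OnCurvesQ)
open Pool.Agent.H911.GD (typ_curves log_one curves_one notIn_one curves_fun)
open Pool.Agent.H911.KD (PropK)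
open Pool.Agent.H911.KE (Out)

theorem outside {N k : ℕ} {A : MvPolynomial (Fin (N + 1)) ℂ} {L : Type} [Field L] [Algebra ℂ L]
    {z : Fin (N + 1) → L} (h : PropK k z A) : HyperbolicOutside k A z :=
  ⟨h.sing, h.van L z fun _ hp => hp.2, h.out, h.curves,
    fun L' _ _ w y hw hy => h.sub L' w y hw hy⟩

theorem outside_of {N m k : ℕ} {A : MvPolynomial (Fin (N + 1)) ℂ} (h : Out m k A) :
    Outside m k A := by
  obtain ⟨L, _, _, w, z, hwm, hz, hp⟩ := h
  exact ⟨L, _, _, w, z, hwm, ⟨hz.ne, fun p => absurd p.2 (Set.notMem_empty _), hz.gen, hz.dim⟩,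
    outside hp⟩

/-- from varieties to hypersurfaces -/
theorem forward {N m k : ℕ} (h : GreenGriffithsLang m) {A : MvPolynomial (Fin (N + 1)) ℂ}
    (hout : Outside m k A) : NoComponent A := by
  obtain ⟨L, _, _, w, z, hwm, hz, -, -, -, hcur, -⟩ := hout
  intro L' _ _ w' y hw' hy hgt
  have h1 := Pool.Agent.H911.KE.out_imp (P := fun _ S T G => OnCurvesQ S T G) (T := {1})
    (A := A) typ_curves (z := z) (fun F hF f hf hf0 hfA _ => ?_) ⟨hz.ne, hz.gen, hz.dim⟩ hwm
    (fun L'' _ _ w'' y'' hw'' hwm'' hy'' _ hlog => by
      obtain ⟨G, hG, hGy, hC⟩ := h N L'' w'' y'' hw'' hwm''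
        ⟨hy''.ne, fun p => absurd p.2 (Set.notMem_empty _), hy''.gen, hy''.dim⟩
        ((log_one hy''.ne).1 hlog)
      exact ⟨G, hG, hGy, (curves_one _ _).2 hC⟩) L' w' y hw' hy (notIn_one y)
    ((log_one hy.ne).2 hgt)
  · simp only [curves_fun] at h1
    exact h1
  · rcases hcur f hf hf0 (fun w => hfA w A rfl) with h2 | h2
    · exact Or.inl h2
    · exact Or.inr fun w => h2 w F hF

end proof

/-- **The Green–Griffiths–Lang conjecture for projective varieties of dimension at most `m` is equivalent to
a statement on hypersurfaces of dimension `2 m - k`, with a singular locus of dimension less than `k`,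
which are hyperbolic outside of a closed subset of dimension at most `m`.** -/
theorem result (m k N : ℕ) (hk : k ≤ m) (hN : N + k = 2 * m + 1) : ∃ D₁ : ℕ → ℕ,
    -- (0) every variety of dimension at most `m` has a model in hypersurfaces of dimension `2 m - k`
    -- which are hyperbolic outside of the model
    (∀ (n : ℕ) (L : Type) [Field L] [Algebra ℂ L] (w : ℕ) (y : Fin (n + 1) → L), w ≤ m →
      SubVar (fun p : (∅ : Set (MvPolynomial (Fin (n + 1)) ℂ)) =>
        (p : MvPolynomial (Fin (n + 1)) ℂ)) L w y →
      ∃ (e : ℕ) (A : Fin (N + 1) → MvPolynomial (Fin (n + 1)) ℂ), 1 ≤ e ∧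
        (∀ i, (A i).IsHomogeneous 1) ∧
        (∀ x : Fin (n + 1) → ℂ, x ≠ 0 → (∀ p ∈ Eqs y, eval x p = 0) → ∃ i, eval x (A i) ≠ 0) ∧
        coords ℂ (fun i => aeval y (A i)) = ⊤ ∧
        ∀ D, D₁ e ≤ D → ∃ Q : Fin (N * (2 * N + 1)) → MvPolynomial (Fin (N + 1)) ℂ,
          (∀ t, (Q t).IsHomogeneous e) ∧
          HyperbolicOutside k (powerForm D Q) fun i => aeval y (A i)) ∧
    -- (0') hypersurfaces which are hyperbolic outside of `X'`: the exceptional set is that of `X'`, and
    -- both sides of Q1 are true for all closed subvarieties which are not in `X'`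
    (∀ (A : MvPolynomial (Fin (N + 1)) ℂ) (L : Type) [Field L] [Algebra ℂ L]
      (z : Fin (N + 1) → L), IsForm A → HyperbolicOutside k A z →
      (∀ G, OnCurves {A} G ↔ OnCurves (Eqs z) G) ∧
      ∀ (L' : Type) [Field L'] [Algebra ℂ L'] (w : ℕ) (y : Fin (N + 1) → L'), 1 ≤ w →
        SubVar (fun _ : Unit => A) L' w y → (∃ p ∈ Eqs z, aeval y p ≠ 0) →
          GeneralType ℂ L' w ∧
            ∃ G : MvPolynomial (Fin (N + 1)) ℂ, IsForm G ∧ aeval y G ≠ 0 ∧ OnCurves (Eqs y) G) ∧
    ∀ δ : ℕ → ℕ, (∀ e, D₁ e ≤ δ e) →
      [ -- (1) varieties of dimension at most `m`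
        GreenGriffithsLang m,
        -- (2) hypersurfaces which are hyperbolic outside of a closed subset of dimension at most `m`
        ∀ A : MvPolynomial (Fin (N + 1)) ℂ, IsForm A → Outside m k A → NoComponent A,
        -- (3) only sums
        ∀ (e : ℕ) (Q : Fin (N * (2 * N + 1)) → MvPolynomial (Fin (N + 1)) ℂ),
          (∀ t, (Q t).IsHomogeneous e) → Outside m k (powerForm (δ e) Q) →
          NoComponent (powerForm (δ e) Q)].TFAE := by
  obtain ⟨D₁, H⟩ := Pool.Agent.H911.KD.exists_bounds N k (by omega)
  refine ⟨D₁, ?_, ?_, fun δ hδ => ?_⟩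
  · intro n L _ _ w y hwm hy
    have hgen : Pool.Agent.N254.SQ.Gen L w y := ⟨hy.ne, hy.gen, hy.dim⟩
    obtain ⟨A, hA⟩ := Pool.Agent.H911.GD.mdl_proj hgen
    obtain ⟨e, z, R, K, he, hz, hP, hQ⟩ := Pool.Agent.H911.KD.exists_models H hgen
      (show w < w + 1 by omega) (by omega) (by omega) hA
    refine ⟨e, _, he, hP.homA, fun x hx hxE => hP.reg ℂ x hx hxE, ?_, fun D hD => ?_⟩
    · rw [hP.z_eq]
      exact hz.gen
    · obtain ⟨Q, hQ1, hQ2⟩ := hQ D hD
      refine ⟨Q, hQ1, ?_⟩
      rw [hP.z_eq]
      exact outside hQ2
  · intro A L _ _ z hA hO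
    have hAz : A ∈ Eqs z := ⟨hA, hO.2.1⟩
    refine ⟨fun G => Pool.Agent.H911.KE.unc_curves hAz hO.2.2.2.1 G,
      fun L' _ _ w y hw hy hyz => ?_⟩
    obtain ⟨p, hp, hyp⟩ := hyz
    have hAy : A ∈ Eqs y := ⟨hA, hy.mem ()⟩
    exact ⟨(hO.2.2.2.2 L' w y hw hy).resolve_right fun h => hyp (h p hp), p, hp.1, hyp,
      Pool.Agent.H911.KE.unc_form_curves hAy hO.2.2.2.1 hp⟩
  · have hE : ∀ e, ∃ D ∈ ({δ e} : Set ℕ), D₁ e ≤ D := fun e => ⟨δ e, rfl, hδ e⟩
    tfae_have 1 → 2 := fun h A _ hout => forward h hout
    tfae_have 2 → 3 := fun h e Q hQ hout =>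
      h _ ⟨e + δ e, Pool.Agent.H911.GD.power_hom hQ⟩ hout
    tfae_have 3 → 1 := by
      intro h n L _ _ w y hw hwm hy hgt
      have hgen : Pool.Agent.N254.SQ.Gen L w y := ⟨hy.ne, hy.gen, hy.dim⟩
      obtain ⟨G, hG, hGy, hC⟩ := Pool.Agent.H911.KE.final_imp Pool.Agent.H911.GD.typ_curves
        Pool.Agent.H911.GD.moves_curves (T := fun _ => {1})
        (fun _ => Pool.Agent.H911.GD.one_form)
        (Pool.Agent.H911.KD.models_one (N := N) (m := m) (k := k) (by omega) (by omega)) H hE
        (fun e D Q hDE _ hQ hout L' _ _ w' y' hw' hy' _ hlog => by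
          obtain rfl : D = δ e := hDE
          simp only [Pool.Agent.H911.GD.curves_fun]
          exact h e Q hQ (outside_of hout) L' w' y' hw' hy'
            ((Pool.Agent.H911.GD.log_one hy'.ne).1 hlog)) hw hwm hgen
        (Pool.Agent.H911.GD.notIn_one y) ((Pool.Agent.H911.GD.log_one hgen.ne).2 hgt)
      exact ⟨G, hG, hGy, (Pool.Agent.H911.GD.curves_one _ _).1 hC⟩
    tfae_finish

end Pool.Agent.Results.MP_8d161d_ag.SmallSingularLocus
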